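import Mathlib

/-!
# Linear relations between the translates of an odd function, reduced modulo a prime number

A group acts on a finite set with an involution which commutes with the action. A relation between
the translates of an odd function splits according to flipped pairs, and on a block which is an
orbit of a group acting through a group of prime power order it vanishes if the values of the
function have a sum which is not divisible by the prime.
-/

set_option linter.unusedSectionVars false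
set_option linter.unusedVariables false

namespace Pool.Agent.V7H95.Syl

open MulAction

/-- Two elements are flipped: some group element fixes one of them and conjugates the other, or
maps the first to the second and the second to the conjugate of the first. -/
def Flip (Γ : Type*) {X : Type*} [Group Γ] [MulAction Γ X] (cb : X → X) (x y : X) : Prop :=
  ∃ σ : Γ, (σ • x = x ∧ σ • y = cb y) ∨ (σ • x = cb x ∧ σ • y = y) ∨ (σ • x = y ∧ σ • y = cb x)

section split

variable {G Y : Type*} [Group G] [Fintype G] [MulAction G Y] [Fintype Y] {cb : Y → Y}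

/-- The correlation of two translates. -/
def corr (G : Type*) {Y : Type*} [Group G] [Fintype G] [MulAction G Y] (W : Y → ℤ) (x y : Y) : ℤ :=
  ∑ g : G, W (g • x) * W (g • y)

theorem corr_smul (W : Y → ℤ) (h : G) (x y : Y) : corr G W (h • x) (h • y) = corr G W x y := by
  unfold corr
  refine Fintype.sum_equiv (Equiv.mulRight h) _ _ fun g => ?_
  simp only [Equiv.coe_mulRight, mul_smul]

theorem corr_symm (W : Y → ℤ) (x y : Y) : corr G W x y = corr G W y x := by
  unfold corr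
  exact Finset.sum_congr rfl fun g _ => mul_comm _ _

variable (hcomm : ∀ (g : G) (y : Y), g • cb y = cb (g • y)) {W : Y → ℤ}
  (hW : ∀ y, W (cb y) = -W y)

include hcomm hW

theorem corr_cb (x y : Y) : corr G W x (cb y) = -corr G W x y := by
  unfold corr
  rw [← Finset.sum_neg_distrib]
  refine Finset.sum_congr rfl fun g _ => ?_
  rw [hcomm, hW, mul_neg]

theorem corr_flip {x y : Y} (h : Flip G cb x y) : corr G W x y = 0 := by
  obtain ⟨σ, ⟨h1, h2⟩ | ⟨h1, h2⟩ | ⟨h1, h2⟩⟩ := h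
  · have e := corr_smul W σ x y
    rw [h1, h2, corr_cb hcomm hW] at e
    omega
  · have e := corr_smul W σ x y
    rw [h1, h2, corr_symm, corr_cb hcomm hW, corr_symm] at e
    omega
  · have e := corr_smul W σ x y
    rw [h1, h2, corr_cb hcomm hW, corr_symm] at e
    omega

/-- A relation splits. -/
theorem split {c : Y → ℤ} (hrel : ∀ g : G, ∑ y, c y * W (g • y) = 0) (C : Finset Y)
    (hflip : ∀ x ∈ C, ∀ y, y ∉ C → Flip G cb x y) (g : G) : ∑ y ∈ C, c y * W (g • y) = 0 := by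
  classical
  have h1 : ∀ x : Y, ∑ y, c y * corr G W y x = 0 := by
    intro x
    unfold corr
    simp only [Finset.mul_sum]
    rw [Finset.sum_comm]
    refine Finset.sum_eq_zero fun g _ => ?_
    have e := hrel g
    calc ∑ y, c y * (W (g • y) * W (g • x)) = (∑ y, c y * W (g • y)) * W (g • x) := by
          rw [Finset.sum_mul]
          exact Finset.sum_congr rfl fun y _ => by ring
      _ = 0 := by rw [e, zero_mul]
  have h2 : ∀ x ∈ C, ∑ y ∈ C, c y * corr G W y x = 0 := by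
    intro x hx
    have e := h1 x
    rw [← Finset.sum_add_sum_compl C] at e
    have e2 : ∑ y ∈ Cᶜ, c y * corr G W y x = 0 := by
      refine Finset.sum_eq_zero fun y hy => ?_
      rw [corr_symm, corr_flip hcomm hW (hflip x hx y (Finset.mem_compl.1 hy)), mul_zero]
    rw [e2, add_zero] at e
    exact e
  have h3 : ∑ g : G, (∑ y ∈ C, c y * W (g • y)) ^ 2 = 0 := by
    have e : ∀ g : G, (∑ y ∈ C, c y * W (g • y)) ^ 2 =
        ∑ x ∈ C, c x * ∑ y ∈ C, c y * (W (g • y) * W (g • x)) := by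
      intro g
      rw [sq, Finset.sum_mul]
      refine Finset.sum_congr rfl fun x _ => ?_
      rw [mul_assoc, Finset.mul_sum, Finset.mul_sum, Finset.mul_sum]
      exact Finset.sum_congr rfl fun y _ => by ring
    rw [Finset.sum_congr rfl fun g _ => e g, Finset.sum_comm]
    refine Finset.sum_eq_zero fun x hx => ?_
    rw [← Finset.mul_sum, Finset.sum_comm]
    have e2 := h2 x hx
    unfold corr at e2
    simp only [Finset.mul_sum] at e2
    rw [e2, mul_zero]
  have h4 := (Finset.sum_eq_zero_iff_of_nonneg fun g _ => sq_nonneg _).1 h3 g (Finset.mem_univ g)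
  exact pow_eq_zero_iff (two_ne_zero) |>.1 h4

end split

section fixed

variable {Γ X : Type*} [Group Γ] [MulAction Γ X]

/-- A nonzero space of functions modulo `ℓ` which is stable under a group acting through an
`ℓ`-group contains a nonzero invariant function. -/
theorem exists_fixed (ℓ : ℕ) [Fact ℓ.Prime] (B : Finset X) (P : Subgroup Γ)
    (hPB : ∀ σ ∈ P, ∀ x ∈ B, σ • x ∈ B) (hP : ∀ σ ∈ P, ∃ n : ℕ, ∀ x ∈ B, σ ^ ℓ ^ n • x = x)
    (U : AddSubgroup (B → ZMod ℓ))
    (hU : ∀ (σ : Γ) (hσ : σ ∈ P), ∀ u ∈ U, (fun x : B => u ⟨σ • x.1, hPB σ hσ x.1 x.2⟩) ∈ U)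
    (hne : ∃ u ∈ U, u ≠ 0) :
    ∃ u ∈ U, u ≠ 0 ∧ ∀ (σ : Γ) (hσ : σ ∈ P) (x : B), u ⟨σ • x.1, hPB σ hσ x.1 x.2⟩ = u x := by
  classical
  let _ : MulAction P B :=
    { smul := fun σ x => ⟨σ.1 • x.1, hPB σ.1 σ.2 x.1 x.2⟩
      one_smul := fun x => Subtype.ext (one_smul Γ x.1)
      mul_smul := fun a b x => Subtype.ext (mul_smul a.1 b.1 x.1) }
  have hval : ∀ (σ : P) (x : B), (σ • x).1 = σ.1 • x.1 := fun _ _ => rfl
  let Q : Subgroup (Equiv.Perm B) := (MulAction.toPermHom P B).range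
  have hQ : IsPGroup ℓ Q := by
    rintro ⟨_, σ, rfl⟩
    obtain ⟨n, hn⟩ := hP σ.1 σ.2
    refine ⟨n, Subtype.ext ?_⟩
    change (MulAction.toPermHom P B σ) ^ ℓ ^ n = 1
    rw [← map_pow]
    ext x
    change ((σ ^ ℓ ^ n : P) • x).1 = x.1
    rw [hval, Subgroup.coe_pow]
    exact hn x.1 x.2
  have hact : ∀ q : Q, ∀ u ∈ U, (fun x : B => u (q.1⁻¹ x)) ∈ U := by
    rintro ⟨_, σ, rfl⟩ u hu
    have h1 := hU σ.1⁻¹ (P.inv_mem σ.2) u hu
    have h2 : (fun x : B => u (((MulAction.toPermHom P B) σ)⁻¹ x)) =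
        fun x : B => u ⟨σ.1⁻¹ • x.1, hPB _ (P.inv_mem σ.2) x.1 x.2⟩ := by
      funext x
      rw [← map_inv]
      rfl
    change (fun x : B => u (((MulAction.toPermHom P B) σ)⁻¹ x)) ∈ U
    rw [h2]
    exact h1
  let _ : MulAction Q U :=
    { smul := fun q u => ⟨fun x => u.1 (q.1⁻¹ x), hact q u.1 u.2⟩
      one_smul := by
        intro u
        apply Subtype.ext
        funext x
        change u.1 ((1 : Q).1⁻¹ x) = u.1 x
        simp
      mul_smul := by
        intro a b u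
        apply Subtype.ext
        funext x
        change u.1 ((a * b : Q).1⁻¹ x) = u.1 (b.1⁻¹ (a.1⁻¹ x))
        rw [Subgroup.coe_mul, mul_inv_rev]
        rfl }
  obtain ⟨u₀, hu₀, hu₀0⟩ := hne
  have hcard : ℓ ∣ Nat.card U := by
    have h1 : Nat.card U ∣ ℓ ^ (Fintype.card B) := by
      have := U.card_addSubgroup_dvd_card
      rwa [Nat.card_eq_fintype_card (α := B → ZMod ℓ), Fintype.card_fun, ZMod.card] at this
    obtain ⟨m, hm, hm2⟩ := (Nat.dvd_prime_pow (Fact.out : ℓ.Prime)).1 h1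
    rw [hm2]
    apply dvd_pow_self
    rintro rfl
    have hnt : Nontrivial U := ⟨⟨⟨u₀, hu₀⟩, 0, fun h => hu₀0 (congrArg Subtype.val h)⟩⟩
    have h3 : 1 < Nat.card U := Finite.one_lt_card
    rw [hm2, pow_zero] at h3
    exact absurd h3 (lt_irrefl _)
  obtain ⟨f, hf, hf0⟩ := hQ.exists_fixed_point_of_prime_dvd_card_of_fixed_point U hcard
    (a := (0 : U)) (by
      intro q
      apply Subtype.ext
      funext x
      rfl)
  refine ⟨f.1, f.2, fun h => hf0 (Subtype.ext h.symm), fun σ hσ x => ?_⟩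
  have h1 : (⟨MulAction.toPermHom P B ⟨σ, hσ⟩, ⟨σ, hσ⟩, rfl⟩ : Q)⁻¹ • f = f := hf _
  have h2 := congrFun (congrArg Subtype.val h1) x
  have h3 : f.1 ((((⟨MulAction.toPermHom P B ⟨σ, hσ⟩, ⟨σ, hσ⟩, rfl⟩ : Q)⁻¹ : Q)).1⁻¹ x) = f.1 x := h2
  rw [Subgroup.coe_inv, inv_inv] at h3
  exact h3

end fixed

section block

variable {Γ X : Type*} [Group Γ] [MulAction Γ X] {cb : X → X} {S : Set X}

/-- **Relations vanish on good blocks.** -/
theorem block_zero (hS : S.Finite) (hst : ∀ σ : Γ, ∀ x ∈ S, σ • x ∈ S) (hcbS : ∀ x ∈ S, cb x ∈ S)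
    (hcb : ∀ x ∈ S, cb (cb x) = x) (hcomm : ∀ σ : Γ, ∀ x ∈ S, σ • cb x = cb (σ • x))
    {W : X → ℤ} (hW : ∀ x ∈ S, W (cb x) = -W x) {c : X → ℤ} (hc : ∀ x ∈ S, c (cb x) = -c x)
    (hrel : ∀ σ : Γ, ∑ᶠ x ∈ S, c x * W (σ • x) = 0)
    (B : Finset X) (hBS : ∀ x ∈ B, x ∈ S) (hhalf : ∀ x ∈ B, cb x ∉ B)
    (hflip : ∀ x ∈ B, ∀ y ∈ S, y ∉ B → cb y ∉ B → Flip Γ cb x y)
    (ℓ : ℕ) [Fact ℓ.Prime] (P : Subgroup Γ) (hPB : ∀ σ ∈ P, ∀ x ∈ B, σ • x ∈ B)
    (hP : ∀ σ ∈ P, ∃ n : ℕ, ∀ x ∈ B, σ ^ ℓ ^ n • x = x)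
    (hcrit : ∀ t : X → ZMod ℓ, (∀ σ ∈ P, ∀ x ∈ B, t (σ • x) = t x) →
      (∀ σ : Γ, ∑ x ∈ B, t x * ((W (σ • x) : ℤ) : ZMod ℓ) = 0) → ∀ x ∈ B, t x = 0) :
    ∀ x ∈ B, c x = 0 := by
  classical
  -- the finite group
  let _ : MulAction Γ S :=
    { smul := fun σ x => ⟨σ • x.1, hst σ x.1 x.2⟩
      one_smul := fun x => Subtype.ext (one_smul Γ x.1)
      mul_smul := fun a b x => Subtype.ext (mul_smul a b x.1) }
  have hval : ∀ (σ : Γ) (x : S), (σ • x).1 = σ • x.1 := fun _ _ => rfl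
  have : Finite S := hS
  let _ : Fintype S := Fintype.ofFinite S
  let G : Subgroup (Equiv.Perm S) := (MulAction.toPermHom Γ S).range
  let _ : Fintype G := Fintype.ofFinite G
  have hGval : ∀ (g : G), ∃ σ : Γ, ∀ x : S, (g • x).1 = σ • x.1 := by
    rintro ⟨g, σ, rfl⟩
    exact ⟨σ, fun x => rfl⟩
  have hGex : ∀ σ : Γ, ∃ g : G, ∀ x : S, (g • x).1 = σ • x.1 :=
    fun σ => ⟨⟨_, σ, rfl⟩, fun x => rfl⟩
  let cbS : S → S := fun x => ⟨cb x.1, hcbS x.1 x.2⟩
  -- the relation on the block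
  have hB2 : ∀ σ : Γ, ∑ x ∈ B, c x * W (σ • x) = 0 := by
    intro σ
    obtain ⟨g, hg⟩ := hGex σ
    let C : Finset S := Finset.univ.filter fun x => x.1 ∈ B ∨ cb x.1 ∈ B
    have hsp := split (G := G) (Y := S) (cb := cbS) (W := fun x => W x.1) (c := fun x => c x.1)
      (by
        intro g y
        obtain ⟨σ, hσ⟩ := hGval g
        apply Subtype.ext
        rw [hσ]
        change σ • cb y.1 = cb (g • y).1
        rw [hσ, hcomm σ y.1 y.2])
      (fun y => hW y.1 y.2)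
      (by
        intro g
        obtain ⟨σ, hσ⟩ := hGval g
        have h1 := hrel σ
        rw [finsum_mem_eq_finite_toFinset_sum _ hS] at h1
        rw [← h1]
        refine Finset.sum_bij (fun x _ => x.1) ?_ ?_ ?_ ?_
        · intro x _
          exact hS.mem_toFinset.2 x.2
        · intro x _ y _ h
          exact Subtype.ext h
        · intro x hx
          exact ⟨⟨x, hS.mem_toFinset.1 hx⟩, Finset.mem_univ _, rfl⟩
        · intro x _
          rw [hσ])
      C
      (by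
        intro x hx y hy
        have hy1 : ¬ (y.1 ∈ B ∨ cb y.1 ∈ B) := fun h => hy (Finset.mem_filter.2 ⟨Finset.mem_univ _, h⟩)
        push Not at hy1
        have key : ∀ x : X, x ∈ B → Flip Γ cb x y.1 := fun x hx => hflip x hx y.1 y.2 hy1.1 hy1.2
        rcases (Finset.mem_filter.1 hx).2 with h | h
        · obtain ⟨τ, hτ⟩ := key _ h
          obtain ⟨g, hg⟩ := hGex τ
          refine ⟨g, ?_⟩
          rcases hτ with ⟨h1, h2⟩ | ⟨h1, h2⟩ | ⟨h1, h2⟩
          · exact Or.inl ⟨Subtype.ext ((hg x).trans h1), Subtype.ext ((hg y).trans h2)⟩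
          · exact Or.inr (Or.inl ⟨Subtype.ext ((hg x).trans h1), Subtype.ext ((hg y).trans h2)⟩)
          · exact Or.inr (Or.inr ⟨Subtype.ext ((hg x).trans h1), Subtype.ext ((hg y).trans h2)⟩)
        · obtain ⟨τ, hτ⟩ := key _ h
          have hxx : cb (cb x.1) = x.1 := hcb x.1 x.2
          have hmov : ∀ τ : Γ, τ • x.1 = cb (τ • cb x.1) := by
            intro τ
            rw [← hcomm τ _ (hcbS _ x.2), hxx]
          rcases hτ with ⟨h1, h2⟩ | ⟨h1, h2⟩ | ⟨h1, h2⟩
          · obtain ⟨g, hg⟩ := hGex τ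
            refine ⟨g, Or.inl ⟨Subtype.ext ((hg x).trans ?_), Subtype.ext ((hg y).trans h2)⟩⟩
            rw [hmov, h1, hxx]
          · obtain ⟨g, hg⟩ := hGex τ
            refine ⟨g, Or.inr (Or.inl ⟨Subtype.ext ((hg x).trans ?_),
              Subtype.ext ((hg y).trans h2)⟩)⟩
            rw [hmov, h1, hxx]
          · -- `τ` maps `cb x` to `y` and `y` to `x`; its inverse maps `x` to `y`, `y` to `cb x`
            obtain ⟨g, hg⟩ := hGex τ⁻¹
            rw [hxx] at h2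
            refine ⟨g, Or.inr (Or.inr ⟨Subtype.ext ((hg x).trans ?_),
              Subtype.ext ((hg y).trans ?_)⟩)⟩
            · rw [inv_smul_eq_iff]
              exact h2.symm
            · rw [inv_smul_eq_iff]
              exact h1.symm) g
    -- sum over the class is twice the sum over the block
    have h2 : ∑ x ∈ C, c x.1 * W (g • x).1 = 2 * ∑ x ∈ B, c x * W (σ • x) := by
      have e1 : ∑ x ∈ C, c x.1 * W (g • x).1 = ∑ x ∈ C.filter (fun x => x.1 ∈ B), c x.1 * W (g • x).1 +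
          ∑ x ∈ C.filter (fun x => ¬ x.1 ∈ B), c x.1 * W (g • x).1 :=
        (Finset.sum_filter_add_sum_filter_not C _ _).symm
      have e2 : ∑ x ∈ C.filter (fun x => x.1 ∈ B), c x.1 * W (g • x).1 =
          ∑ x ∈ B, c x * W (σ • x) := by
        refine Finset.sum_bij (fun x _ => x.1) ?_ ?_ ?_ ?_
        · intro x hx
          exact (Finset.mem_filter.1 hx).2
        · intro x _ y _ h
          exact Subtype.ext h
        · intro x hx
          exact ⟨⟨x, hBS x hx⟩, Finset.mem_filter.2 ⟨Finset.mem_filter.2 ⟨Finset.mem_univ _,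
            Or.inl hx⟩, hx⟩, rfl⟩
        · intro x _
          rw [hg]
      have e3 : ∑ x ∈ C.filter (fun x => ¬ x.1 ∈ B), c x.1 * W (g • x).1 =
          ∑ x ∈ B, c x * W (σ • x) := by
        refine Finset.sum_bij (fun x _ => cb x.1) ?_ ?_ ?_ ?_
        · intro x hx
          rw [Finset.mem_filter, Finset.mem_filter] at hx
          exact hx.1.2.resolve_left hx.2
        · intro x _ y _ h
          apply Subtype.ext
          rw [← hcb x.1 x.2, ← hcb y.1 y.2, h]
        · intro x hx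
          refine ⟨⟨cb x, hcbS x (hBS x hx)⟩, Finset.mem_filter.2 ⟨Finset.mem_filter.2
            ⟨Finset.mem_univ _, Or.inr ?_⟩, hhalf x hx⟩, hcb x (hBS x hx)⟩
          change cb (cb x) ∈ B
          rw [hcb x (hBS x hx)]
          exact hx
        · intro x _
          rw [hg, hc x.1 x.2, hcomm σ x.1 x.2, hW _ (hst σ x.1 x.2)]
          ring
      rw [e1, e2, e3]
      ring
    have h3 : ∑ x ∈ C, c x.1 * W (g • x).1 = 0 := hsp
    omega
  -- reduction modulo `ℓ`
  by_contra hcon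
  push Not at hcon
  obtain ⟨x₀, hx₀, hcx₀⟩ := hcon
  obtain ⟨c', hc1, hc2⟩ := Finset.extract_gcd (s := B) c ⟨x₀, hx₀⟩
  obtain ⟨d, hd⟩ : ∃ d, d = B.gcd c := ⟨_, rfl⟩
  rw [← hd] at hc1
  have hd0 : d ≠ 0 := by
    intro h
    apply hcx₀
    rw [hc1 x₀ hx₀, h, zero_mul]
  have hrel' : ∀ σ : Γ, ∑ x ∈ B, c' x * W (σ • x) = 0 := by
    intro σ
    apply mul_left_cancel₀ hd0
    rw [mul_zero, Finset.mul_sum, ← hB2 σ]
    refine Finset.sum_congr rfl fun x hx => ?_
    rw [hc1 x hx]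
    ring
  have hnd : ∃ x ∈ B, ¬ (ℓ : ℤ) ∣ c' x := by
    by_contra hall
    push Not at hall
    have h1 : (ℓ : ℤ) ∣ B.gcd c' := Finset.dvd_gcd hall
    rw [hc2] at h1
    have h2 := Int.isUnit_iff_natAbs_eq.1 (isUnit_of_dvd_one h1)
    simp only [Int.natAbs_natCast] at h2
    exact (Fact.out : ℓ.Prime).one_lt.ne' h2
  let U : AddSubgroup (B → ZMod ℓ) :=
    { carrier := {u | ∀ σ : Γ, ∑ x : B, u x * ((W (σ • x.1) : ℤ) : ZMod ℓ) = 0}
      zero_mem' := fun σ => by simp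
      add_mem' := by
        intro a b ha hb σ
        simp only [Pi.add_apply, add_mul, Finset.sum_add_distrib, ha σ, hb σ, add_zero]
      neg_mem' := by
        intro a ha σ
        simp only [Pi.neg_apply, neg_mul, Finset.sum_neg_distrib, ha σ, neg_zero] }
  have hUmem : ∀ u : B → ZMod ℓ, u ∈ U ↔
      ∀ σ : Γ, ∑ x : B, u x * ((W (σ • x.1) : ℤ) : ZMod ℓ) = 0 := fun u => Iff.rfl
  obtain ⟨u, hu, hu0, hufix⟩ := exists_fixed ℓ B P hPB hP U (by
    intro σ hσ u hu
    rw [hUmem] at hu ⊢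
    intro τ
    rw [← hu (τ * σ⁻¹)]
    let e : B ≃ B :=
      { toFun := fun x => ⟨σ • x.1, hPB σ hσ x.1 x.2⟩
        invFun := fun x => ⟨σ⁻¹ • x.1, hPB σ⁻¹ (P.inv_mem hσ) x.1 x.2⟩
        left_inv := fun x => Subtype.ext (inv_smul_smul σ x.1)
        right_inv := fun x => Subtype.ext (smul_inv_smul σ x.1) }
    refine Fintype.sum_equiv e _ _ fun x => ?_
    change u ⟨σ • x.1, _⟩ * ((W (τ • x.1) : ℤ) : ZMod ℓ) =
      u ⟨σ • x.1, _⟩ * ((W ((τ * σ⁻¹) • σ • x.1) : ℤ) : ZMod ℓ)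
    rw [mul_smul, inv_smul_smul]) (by
    refine ⟨fun x => ((c' x.1 : ℤ) : ZMod ℓ), ?_, ?_⟩
    · rw [hUmem]
      intro σ
      have h1 := congrArg (fun n : ℤ => (n : ZMod ℓ)) (hrel' σ)
      simp only [Int.cast_sum, Int.cast_mul, Int.cast_zero] at h1
      rw [← h1, ← Finset.sum_coe_sort B]
    · intro h
      obtain ⟨x, hx, hx'⟩ := hnd
      apply hx'
      have h1 := congrFun h ⟨x, hx⟩
      exact (ZMod.intCast_zmod_eq_zero_iff_dvd _ _).1 h1)
  apply hu0
  obtain ⟨t, ht⟩ : ∃ t : X → ZMod ℓ, ∀ x : B, t x.1 = u x := by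
    refine ⟨fun x => if h : x ∈ B then u ⟨x, h⟩ else 0, fun x => ?_⟩
    simp only
    rw [dif_pos x.2]
  have h1 := hcrit t (by
    intro σ hσ x hx
    have e := hufix σ hσ ⟨x, hx⟩
    rw [← ht, ← ht] at e
    exact e) (by
    intro σ
    have e := (hUmem u).1 hu σ
    rw [← e, ← Finset.sum_coe_sort B]
    exact Finset.sum_congr rfl fun x _ => by rw [ht])
  funext x
  rw [← ht x]
  exact h1 x.1 x.2

/-- The criterion for one orbit. -/
theorem crit_orbit {ℓ : ℕ} [Fact ℓ.Prime] {B : Finset X} {P : Subgroup Γ} {W : X → ℤ}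
    (htr : ∀ x ∈ B, ∀ y ∈ B, ∃ σ ∈ P, σ • x = y)
    (hsum : ∃ σ : Γ, ¬ (ℓ : ℤ) ∣ ∑ x ∈ B, W (σ • x)) (t : X → ZMod ℓ)
    (h1 : ∀ σ ∈ P, ∀ x ∈ B, t (σ • x) = t x)
    (h2 : ∀ σ : Γ, ∑ x ∈ B, t x * ((W (σ • x) : ℤ) : ZMod ℓ) = 0) : ∀ x ∈ B, t x = 0 := by
  intro x hx
  obtain ⟨σ, hσ⟩ := hsum
  have h3 := h2 σ
  have h4 : ∀ y ∈ B, t y = t x := by
    intro y hy
    obtain ⟨τ, hτ, rfl⟩ := htr x hx y hy
    exact h1 τ hτ x hx
  rw [Finset.sum_congr rfl fun y hy => by rw [h4 y hy], ← Finset.mul_sum] at h3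
  rcases mul_eq_zero.1 h3 with h | h
  · exact h
  · exfalso
    apply hσ
    rw [← ZMod.intCast_zmod_eq_zero_iff_dvd]
    push_cast
    exact h

end block

end Pool.Agent.V7H95.Syl
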