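import Mathlib
import Pool.Agent.V7H95.Syl.Core

/-!
# Good blocks
-/

set_option linter.unusedSectionVars false
set_option linter.unusedVariables false

namespace Pool.Agent.V7H95.Syl

open MulAction

/-- The element `x` is contained in a good block `B` for the function `W`: the block contains no two
conjugate elements, it is stable under a group `P` whose elements act on it with orders which are
powers of the prime number `ℓ`, its elements are flipped against all elements outside of the block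
and of its conjugate, and a function modulo `ℓ` on the block which is invariant under `P` and
orthogonal to all translates of `W` is zero. -/
def GoodBlock (Γ : Type*) {X : Type*} [Group Γ] [MulAction Γ X] (cb : X → X) (W : X → ℤ)
    (x : X) : Prop :=
  ∃ (ℓ : ℕ) (P : Subgroup Γ) (B : Finset X), ℓ.Prime ∧ x ∈ B ∧ (∀ y ∈ B, cb y ∉ B) ∧
    (∀ σ ∈ P, ∀ y ∈ B, σ • y ∈ B) ∧ (∀ σ ∈ P, ∃ n : ℕ, ∀ y ∈ B, σ ^ ℓ ^ n • y = y) ∧
    (∀ y ∈ B, ∀ z, cb z ≠ z → z ∉ B → cb z ∉ B → Flip Γ cb y z) ∧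
    ∀ t : X → ZMod ℓ, (∀ σ ∈ P, ∀ y ∈ B, t (σ • y) = t y) →
      (∀ σ : Γ, ∑ y ∈ B, t y * ((W (σ • y) : ℤ) : ZMod ℓ) = 0) → ∀ y ∈ B, t y = 0

variable {Γ X : Type*} [Group Γ] [MulAction Γ X] {cb : X → X} {S : Set X}

theorem GoodBlock.zero {W : X → ℤ} {x₀ : X} (h : GoodBlock Γ cb W x₀) (hS : S.Finite)
    (hst : ∀ σ : Γ, ∀ x ∈ S, σ • x ∈ S) (hcbS : ∀ x ∈ S, cb x ∈ S)
    (hcb : ∀ x ∈ S, cb (cb x) = x) (hne : ∀ x ∈ S, cb x ≠ x)
    (hcomm : ∀ σ : Γ, ∀ x ∈ S, σ • cb x = cb (σ • x))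
    (hW : ∀ x ∈ S, W (cb x) = -W x) {c : X → ℤ} (hc : ∀ x ∈ S, c (cb x) = -c x)
    (hrel : ∀ σ : Γ, ∑ᶠ x ∈ S, c x * W (σ • x) = 0) (hx₀ : x₀ ∈ S) : c x₀ = 0 := by
  classical
  obtain ⟨ℓ, P, B, hℓ, hxB, hhalf, hPB, hP, hflip, hcrit⟩ := h
  have _ : Fact ℓ.Prime := ⟨hℓ⟩
  have hst' : ∀ σ : Γ, ∀ x, x ∉ S → σ • x ∉ S := by
    intro σ x hx h
    apply hx
    have := hst σ⁻¹ _ h
    rwa [inv_smul_smul] at this
  refine block_zero hS hst hcbS hcb hcomm hW hc hrel (B.filter (fun x => x ∈ S)) ?_ ?_ ?_ ℓ P ?_ ?_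
    ?_ x₀ (Finset.mem_filter.2 ⟨hxB, hx₀⟩)
  · intro x hx
    exact (Finset.mem_filter.1 hx).2
  · intro x hx hx'
    exact hhalf x (Finset.mem_filter.1 hx).1 (Finset.mem_filter.1 hx').1
  · intro x hx y hy h1 h2
    refine hflip x (Finset.mem_filter.1 hx).1 y (hne y hy) (fun h => h1 ?_) (fun h => h2 ?_)
    · exact Finset.mem_filter.2 ⟨h, hy⟩
    · exact Finset.mem_filter.2 ⟨h, hcbS y hy⟩
  · intro σ hσ x hx
    exact Finset.mem_filter.2 ⟨hPB σ hσ x (Finset.mem_filter.1 hx).1,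
      hst σ x (Finset.mem_filter.1 hx).2⟩
  · intro σ hσ
    obtain ⟨n, hn⟩ := hP σ hσ
    exact ⟨n, fun x hx => hn x (Finset.mem_filter.1 hx).1⟩
  · intro t ht1 ht2 x hx
    have h1 := hcrit (fun x => if x ∈ S then t x else 0) (by
      intro σ hσ y hy
      by_cases h : y ∈ S
      · rw [if_pos h, if_pos (hst σ y h)]
        exact ht1 σ hσ y (Finset.mem_filter.2 ⟨hy, h⟩)
      · rw [if_neg h, if_neg (hst' σ y h)]) (by
      intro σ
      refine Eq.trans ?_ (ht2 σ)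
      rw [Finset.sum_filter]
      refine Finset.sum_congr rfl fun y _ => ?_
      by_cases h : y ∈ S
      · rw [if_pos h, if_pos h]
      · rw [if_neg h, if_neg h, zero_mul]) x (Finset.mem_filter.1 hx).1
    rwa [if_pos (Finset.mem_filter.1 hx).2] at h1

/-- **Separation.** If the multiplicities agree at all translates at which one of the two places
is indefinite and if the two elements are flipped, then the relative rank is one or two. -/
theorem sep_flip {S : Set X} {R : X → ℕ} (hst : ∀ σ : Γ, ∀ x ∈ S, σ • x ∈ S)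
    (hcb : ∀ x ∈ S, cb (cb x) = x) (hcomm : ∀ σ : Γ, ∀ x ∈ S, σ • cb x = cb (σ • x))
    (hN : ∀ σ : Γ, ∀ x ∈ S, R (σ • x) + R (cb (σ • x)) = R x + R (cb x))
    {x y : X} (hx : x ∈ S) (hy : y ∈ S) (hcop : ∃ σ : Γ, Nat.Coprime (R (σ • x)) (R (cb (σ • x))))
    (h3 : R x + R (cb x) = R y + R (cb y)) (h4 : R x + R (cb x) ≠ 1)
    (h5 : ∀ σ : Γ, R (σ • x) = R (σ • y) ∨
      (R (σ • x) * R (cb (σ • x)) = 0 ∧ R (σ • y) * R (cb (σ • y)) = 0))
    (hf : Flip Γ cb x y) : R x + R (cb x) = 2 := by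
  obtain ⟨N, hNx⟩ : ∃ N, N = R x + R (cb x) := ⟨_, rfl⟩
  have hXN : ∀ σ : Γ, R (σ • x) + R (cb (σ • x)) = N := fun σ => by rw [hN σ x hx, hNx]
  have hYN : ∀ σ : Γ, R (σ • y) + R (cb (σ • y)) = N := fun σ => by rw [hN σ y hy, hNx, h3]
  obtain ⟨σ₁, hσ₁⟩ := hcop
  have hnd : R (σ₁ • x) * R (cb (σ₁ • x)) ≠ 0 := by
    intro h
    have e1 := hXN σ₁
    rcases mul_eq_zero.1 h with h | h
    · rw [h, Nat.coprime_zero_left] at hσ₁
      omega
    · rw [h, Nat.coprime_zero_right] at hσ₁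
      omega
  have heq₁ : R (σ₁ • x) = R (σ₁ • y) := (h5 σ₁).resolve_right fun h => hnd h.1
  have hhalf : R (σ₁ • x) = R (cb (σ₁ • x)) → R x + R (cb x) = 2 := by
    intro h
    rw [h, Nat.coprime_self] at hσ₁
    have e1 := hXN σ₁
    omega
  have ex := hXN σ₁
  have ey := hYN σ₁
  have hcx : σ₁ • cb x = cb (σ₁ • x) := hcomm σ₁ x hx
  have hcy : σ₁ • cb y = cb (σ₁ • y) := hcomm σ₁ y hy
  have hcc : cb (cb (σ₁ • x)) = σ₁ • x := hcb _ (hst σ₁ x hx)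
  apply hhalf
  obtain ⟨τ, ⟨t1, t2⟩ | ⟨t1, t2⟩ | ⟨t1, t2⟩⟩ := hf
  · have e3 := h5 (σ₁ * τ)
    rw [mul_smul, mul_smul, t1, t2, hcy] at e3
    rcases e3 with e3 | e3
    · omega
    · exact absurd e3.1 hnd
  · have e3 := h5 (σ₁ * τ)
    rw [mul_smul, mul_smul, t1, t2, hcx, hcc] at e3
    rcases e3 with e3 | e3
    · omega
    · exact absurd (by rw [mul_comm]; exact e3.1) hnd
  · have e3 := h5 (σ₁ * τ)
    rw [mul_smul, mul_smul, t1, t2, hcx, hcc] at e3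
    rcases e3 with e3 | e3
    · omega
    · exact absurd (by rw [mul_comm]; exact e3.2) hnd

/-- **Separation.** -/
theorem sep_block {S : Set X} {R : X → ℕ} (hst : ∀ σ : Γ, ∀ x ∈ S, σ • x ∈ S)
    (hcb : ∀ x ∈ S, cb (cb x) = x) (hcomm : ∀ σ : Γ, ∀ x ∈ S, σ • cb x = cb (σ • x))
    (hN : ∀ σ : Γ, ∀ x ∈ S, R (σ • x) + R (cb (σ • x)) = R x + R (cb x))
    (hcop : ∀ x ∈ S, ∃ σ : Γ, Nat.Coprime (R (σ • x)) (R (cb (σ • x))))
    (hsep : ∀ x ∈ S, ∀ y ∈ S, cb x ≠ x → cb y ≠ y → y ≠ x → y ≠ cb x →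
      R x + R (cb x) = R y + R (cb y) → R x + R (cb x) ≠ 1 →
      (R x + R (cb x) = 2 ∨ ¬ Flip Γ cb x y) →
      (∀ σ : Γ, R (σ • x) = R (σ • y) ∨
        (R (σ • x) * R (cb (σ • x)) = 0 ∧ R (σ • y) * R (cb (σ • y)) = 0)) →
      ∀ σ : Γ, R (σ • x) = R (σ • y))
    {x y : X} (hx : x ∈ S) (hy : y ∈ S) (h1 : y ≠ x) (h2 : y ≠ cb x)
    (h3 : R x + R (cb x) = R y + R (cb y)) (h4 : R x + R (cb x) ≠ 1)
    (h5 : ∀ σ : Γ, R (σ • x) = R (σ • y) ∨
      (R (σ • x) * R (cb (σ • x)) = 0 ∧ R (σ • y) * R (cb (σ • y)) = 0)) (σ : Γ) :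
    R (σ • x) = R (σ • y) := by
  obtain ⟨N, hNx⟩ : ∃ N, N = R x + R (cb x) := ⟨_, rfl⟩
  have hXN : ∀ σ : Γ, R (σ • x) + R (cb (σ • x)) = N := fun σ => by rw [hN σ x hx, hNx]
  have hYN : ∀ σ : Γ, R (σ • y) + R (cb (σ • y)) = N := fun σ => by rw [hN σ y hy, hNx, h3]
  obtain ⟨σ₁, hσ₁⟩ := hcop x hx
  have hnd : R (σ₁ • x) * R (cb (σ₁ • x)) ≠ 0 := by
    intro h
    have e1 := hXN σ₁
    rcases mul_eq_zero.1 h with h | h
    · rw [h, Nat.coprime_zero_left] at hσ₁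
      omega
    · rw [h, Nat.coprime_zero_right] at hσ₁
      omega
  have heq₁ : R (σ₁ • x) = R (σ₁ • y) := (h5 σ₁).resolve_right fun h => hnd h.1
  have key : ∀ τ : Γ, R (τ • y) * R (cb (τ • y)) ≠ 0 → R (τ • x) = R (τ • y) := fun τ h =>
    (h5 τ).resolve_right fun h' => h h'.2
  have key' : ∀ τ : Γ, R (τ • x) * R (cb (τ • x)) ≠ 0 → R (τ • x) = R (τ • y) := fun τ h =>
    (h5 τ).resolve_right fun h' => h h'.1
  have hhalf : R (σ₁ • x) = R (cb (σ₁ • x)) → N = 2 := by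
    intro h
    rw [h, Nat.coprime_self] at hσ₁
    have e1 := hXN σ₁
    omega
  by_cases hxr : cb x = x
  · have hr : ∀ τ : Γ, R (cb (τ • x)) = R (τ • x) := fun τ => by rw [← hcomm τ x hx, hxr]
    have hN2 := hhalf (hr σ₁).symm
    apply key'
    have e1 := hXN σ
    have e2 := hr σ
    have e3 : R (σ • x) = 1 := by omega
    have e4 : R (cb (σ • x)) = 1 := by omega
    rw [e3, e4]
    norm_num
  by_cases hyr : cb y = y
  · have hr : ∀ τ : Γ, R (cb (τ • y)) = R (τ • y) := fun τ => by rw [← hcomm τ y hy, hyr]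
    have hN2 : N = 2 := by
      apply hhalf
      have e1 := hXN σ₁
      have e2 := hYN σ₁
      have e3 := hr σ₁
      omega
    apply key
    have e1 := hYN σ
    have e2 := hr σ
    have e3 : R (σ • y) = 1 := by omega
    have e4 : R (cb (σ • y)) = 1 := by omega
    rw [e3, e4]
    norm_num
  refine hsep x hx y hy hxr hyr h1 h2 h3 h4 ?_ h5 σ
  by_cases hf : Flip Γ cb x y
  · exact Or.inl (sep_flip hst hcb hcomm hN hx hy ⟨σ₁, hσ₁⟩ h3 h4 h5 hf)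
  · exact Or.inr hf

end Pool.Agent.V7H95.Syl
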