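import Mathlib
import Pool.Agent.H925R2.Core
import Pool.Agent.V7H95.Syl.Block

/-!
# Blocks of prime power cardinality: a group acting through a group of prime power order
-/

set_option linter.unusedSectionVars false
set_option linter.unusedVariables false

namespace Pool.Agent.V7H95.Syl

open MulAction

variable {Γ X : Type*} [Group Γ] [MulAction Γ X]

/-- If a group acts transitively on a finite set of `ℓ ^ k` elements, a subgroup acting through an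
`ℓ`-group is transitive. -/
theorem exists_sylow (ℓ k : ℕ) [Fact ℓ.Prime] (B : Finset X) (H : Subgroup Γ)
    (hH : ∀ σ ∈ H, ∀ x ∈ B, σ • x ∈ B) (htr : ∀ x ∈ B, ∀ y ∈ B, ∃ σ ∈ H, σ • x = y)
    (hcard : B.card = ℓ ^ k) :
    ∃ P : Subgroup Γ, (∀ σ ∈ P, ∀ x ∈ B, σ • x ∈ B) ∧
      (∀ σ ∈ P, ∃ n : ℕ, ∀ x ∈ B, σ ^ ℓ ^ n • x = x) ∧
      ∀ x ∈ B, ∀ y ∈ B, ∃ σ ∈ P, σ • x = y := by
  classical
  let _ : MulAction H B :=
    { smul := fun σ x => ⟨σ.1 • x.1, hH σ.1 σ.2 x.1 x.2⟩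
      one_smul := fun x => Subtype.ext (one_smul Γ x.1)
      mul_smul := fun a b x => Subtype.ext (mul_smul a.1 b.1 x.1) }
  have hval : ∀ (σ : H) (x : B), (σ • x).1 = σ.1 • x.1 := fun _ _ => rfl
  let Q : Subgroup (Equiv.Perm B) := (MulAction.toPermHom H B).range
  have hQval : ∀ q : Q, ∃ σ : H, ∀ x : B, (q • x).1 = σ.1 • x.1 := by
    rintro ⟨q, σ, rfl⟩
    exact ⟨σ, fun x => rfl⟩
  have _ : MulAction.IsPretransitive Q B := by
    refine ⟨fun x y => ?_⟩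
    obtain ⟨σ, hσ, h⟩ := htr x.1 x.2 y.1 y.2
    exact ⟨⟨_, ⟨σ, hσ⟩, rfl⟩, Subtype.ext h⟩
  obtain ⟨S⟩ : Nonempty (Sylow ℓ Q) := inferInstance
  have hS := Pool.Agent.H925R2.sylow_transitive (G := Q) (B := B) ℓ k
    (by rw [Nat.card_eq_fintype_card, Fintype.card_coe, hcard]) S
  let P : Subgroup Γ := ((S : Subgroup Q).comap (MulAction.toPermHom H B).rangeRestrict).map
    H.subtype
  refine ⟨P, ?_, ?_, ?_⟩
  · rintro _ ⟨σ, -, rfl⟩ x hx
    exact hH σ.1 σ.2 x hx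
  · rintro _ ⟨σ, hσ, rfl⟩
    obtain ⟨n, hn⟩ := S.isPGroup' ⟨_, hσ⟩
    refine ⟨n, fun x hx => ?_⟩
    have h1 : ((MulAction.toPermHom H B).rangeRestrict σ) ^ ℓ ^ n = 1 := congrArg Subtype.val hn
    rw [← map_pow] at h1
    have h2 := congrArg (fun q : Q => (q.1 ⟨x, hx⟩).1) h1
    exact h2
  · intro x hx y hy
    obtain ⟨s, hs⟩ := hS ⟨x, hx⟩ ⟨y, hy⟩
    obtain ⟨⟨q, σ, rfl⟩, hq⟩ := s
    refine ⟨σ.1, ⟨σ, hq, rfl⟩, ?_⟩
    exact congrArg Subtype.val hs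

end Pool.Agent.V7H95.Syl
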